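import Pool.Agent.Q94.KR.K1
import Pool.Agent.Q94.KR.K2
import Pool.Agent.Q94.KR.K3
import Pool.Agent.Q94.KR.K4
import Pool.Agent.Q94.KR.K5
import Pool.Agent.Q94.KR.K6
import Pool.Agent.Q94.KR.K7
import Pool.Agent.Q94.KR.K8
import Pool.Agent.Q94.KR.K9
import Pool.Agent.Q94.KR.K10
import Pool.Agent.Q94.KR.K11
import Pool.Agent.Q94.KR.K12
import Pool.Agent.Q94.KR.K13
import Pool.Agent.Q94.KR.K14
import Pool.Agent.Q94.KR.K16
import Pool.Agent.Q94.KR.K17
import Pool.Agent.Q94.KR.K18
import Pool.Agent.Q94.KR.K19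
import Pool.Agent.Q94.KR.K20
import Pool.Agent.Q94.KR.K21
import Pool.Agent.Q94.KR.K22
import Pool.Agent.Q94.KR.K23
import Pool.Agent.Q94.KR.K24
import Pool.Agent.Q94.KR.K25

/-!
# The inner factor of a maximal Blaschke product is a maximal Blaschke product

Let `A = B ∘ C` be a maximal Blaschke product, where `B` and `C` are bounded holomorphic functions
on the unit disc and `C` maps the disc into itself.  Then `C` is a maximal Blaschke product if
and only if `B` is bounded by `1`.

Idea of the proof (helpers 72 and 62).  Let `lam f = |f'| / (1 - |f|²)`.  Maximal Blaschke products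
are exactly the functions whose metric `lam f` is the largest one of curvature at most `-4` with
zeros at least those of the metric.  Let `F` be the maximal Blaschke product with the critical set
of `C`, so `lam C ≤ lam F`, and `lam A ≤ lam C` because `B` maps the disc into itself.  Then
`σ = lam A * lam F / lam C` satisfies
`Δ log σ - 4 σ² = 4 (lam F² - lam C²) (lam C² - lam A²) / lam C² ≥ 0`,
so `σ ≤ lam A` by the maximality of `A`, hence `lam F = lam C`, and `C = T ∘ F` for an
automorphism `T`.  All facts on maximal Blaschke products that are needed (existence and uniqueness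
of the extremal function, its metric being the largest one) are proved here as well.
-/

open Metric

namespace Pool.Agent.Results.MP_ce8478_an.InnerFactorMaximal

/-- Bounded holomorphic functions on the open unit disc. -/
def Hinf (f : ℂ → ℂ) : Prop := DifferentiableOn ℂ f (ball 0 1) ∧
  ∃ M : ℝ, ∀ z ∈ ball (0 : ℂ) 1, ‖f z‖ ≤ M

/-- `H^∞` critical sets, given by their multiplicity function `m` (only its values in the open
unit disc matter): some function in `H^∞` has a critical point of multiplicity exactly `m z` at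
every point `z` of the disc.  Such a function is nonconstant, since all these multiplicities are
finite. -/
def IsCriticalSet (m : ℂ → ℕ) : Prop :=
  ∃ f, Hinf f ∧ ∀ z ∈ ball (0 : ℂ) 1, analyticOrderAt (deriv f) z = m z

/-- The functions in `H^∞` of norm at most `1` whose derivative vanishes at every point `z` of the
disc at least to the order `m z`. -/
def Admissible (m : ℂ → ℕ) (f : ℂ → ℂ) : Prop := Hinf f ∧
  (∀ z ∈ ball (0 : ℂ) 1, ‖f z‖ ≤ 1) ∧
  ∀ z ∈ ball (0 : ℂ) 1, (m z : ℕ∞) ≤ analyticOrderAt (deriv f) z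

/-- The solutions of the extremal problem. -/
def IsExtremal (m : ℂ → ℕ) (f : ℂ → ℂ) : Prop := Admissible m f ∧ ∀ g, Admissible m g →
  (iteratedDeriv (m 0 + 1) g 0).re ≤ (iteratedDeriv (m 0 + 1) f 0).re

/-- The conformal automorphisms of the unit disc. -/
def IsDiscAutomorphism (T : ℂ → ℂ) : Prop := ∃ a c : ℂ, ‖a‖ < 1 ∧ ‖c‖ = 1 ∧
  ∀ w, T w = c * ((w - a) / (1 - (starRingEnd ℂ) a * w))

/-- Maximal Blaschke products. -/
def IsMaximalBlaschke (A : ℂ → ℂ) : Prop := ∃ m, IsCriticalSet m ∧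
  ∃ f T, IsExtremal m f ∧ IsDiscAutomorphism T ∧ ∀ z ∈ ball (0 : ℂ) 1, A z = T (f z)

lemma crit_iff (m : ℂ → ℕ) : IsCriticalSet m ↔ Q94.KR.Crit m := by
  constructor
  · rintro ⟨f, ⟨h1, h2⟩, h3⟩
    exact ⟨f, h1, h2, h3⟩
  · rintro ⟨f, h1, h2, h3⟩
    exact ⟨f, ⟨h1, h2⟩, h3⟩

lemma fam_iff (m : ℂ → ℕ) (f : ℂ → ℂ) : Admissible m f ↔ Q94.KR.Fam m f := by
  constructor
  · rintro ⟨⟨h1, -⟩, h2, h3⟩
    exact ⟨h1, h2, h3⟩
  · rintro ⟨h1, h2, h3⟩
    exact ⟨⟨h1, 1, h2⟩, h2, h3⟩

lemma ext_iff (m : ℂ → ℕ) (f : ℂ → ℂ) : IsExtremal m f ↔ Q94.KR.Ext m f := by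
  unfold IsExtremal Q94.KR.Ext
  simp only [fam_iff]

lemma mbp_iff (A : ℂ → ℂ) : IsMaximalBlaschke A ↔ Q94.KR.MBP A := by
  unfold IsMaximalBlaschke Q94.KR.MBP
  simp only [crit_iff, ext_iff]
  rfl

open Q94.KR in
/-- (1) If `A = B ∘ C` is a maximal Blaschke product, `B, C ∈ H^∞` and `C` maps the disc into
itself, then `C` is a maximal Blaschke product if and only if `B` is bounded by `1`.
(2) The bound on `B` cannot be dropped: there are `B, C ∈ H^∞` such that `C` maps the disc into
itself, `B ∘ C` is a maximal Blaschke product and `C` is not (`B w = 2 w`, `C z = z / 2`).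
(3) For every `H^∞` critical set the extremal problem has a unique solution, and the critical
set of this solution is the given one. -/
theorem result :
    (∀ A B C : ℂ → ℂ, Hinf B → Hinf C → (∀ z ∈ ball (0 : ℂ) 1, ‖C z‖ < 1) →
      (∀ z ∈ ball (0 : ℂ) 1, A z = B (C z)) → IsMaximalBlaschke A →
      (IsMaximalBlaschke C ↔ ∀ w ∈ ball (0 : ℂ) 1, ‖B w‖ ≤ 1)) ∧
    (∃ B C : ℂ → ℂ, Hinf B ∧ Hinf C ∧ (∀ z ∈ ball (0 : ℂ) 1, ‖C z‖ < 1) ∧
      IsMaximalBlaschke (fun z => B (C z)) ∧ ¬ IsMaximalBlaschke C) ∧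
    (∀ m, IsCriticalSet m → ∃ f, IsExtremal m f ∧
      (∀ z ∈ ball (0 : ℂ) 1, analyticOrderAt (deriv f) z = m z) ∧
      ∀ g, IsExtremal m g → ∀ z ∈ ball (0 : ℂ) 1, g z = f z) := by
  have hll := ll lh
  have hskl := skl hll or_
  have hcmp := cmp mx hll or_
  have hah := ah hcmp
  have hst := st po
  have hsc := sc pb po
  have hfp := fp hst hsc
  have haq := aq ph
  have hap := ap mx lq hll
  have hex := exr (ex1 po hst hfp ph hap haq)
  have hum := um or_ hskl hcmp hah hex
  have hsmp := smp mx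
  have hrg := rg au
  have hea := ea or_ hskl
  have heb := eb or_ hskl lh hsmp hrg
  have hec := ec hum hea heb au
  have hfin := fin or_ hll hskl hah hrg au hec
  have hlit := lit hah hskl au hec
  refine ⟨fun A B C hB hC hC1 hABC hA => ?_, ?_, fun m hm => ?_⟩
  · rw [mbp_iff] at hA ⊢
    exact ⟨fun hCm => bdd hskl au hec hB.1 hCm hABC hA,
      fun hB1 => hfin A B C hB.1 hB1 hC.1 hC1 hABC hA⟩
  · refine ⟨fun w => 2 * w, fun z => z / 2, ⟨by fun_prop, 2, fun z hz => ?_⟩,
      ⟨by fun_prop, 1, fun z hz => ?_⟩, fun z hz => ?_, ?_, ?_⟩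
    · rw [mem_ball_zero_iff] at hz
      rw [norm_mul, Complex.norm_ofNat]
      linarith
    · rw [mem_ball_zero_iff] at hz
      rw [norm_div, Complex.norm_ofNat]
      linarith
    · rw [mem_ball_zero_iff] at hz
      rw [norm_div, Complex.norm_ofNat]
      linarith
    · have h1 : (fun z : ℂ => 2 * (z / 2)) = fun z => z := by
        ext z
        ring
      rw [h1, mbp_iff]
      exact hlit.1
    · rw [mbp_iff]
      exact hlit.2
  · obtain ⟨F, hF, hFe, hFu⟩ := hec m ((crit_iff m).1 hm)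
    exact ⟨F, (ext_iff m F).2 hFe, hF.ord, fun g hg => hFu g ((ext_iff m g).1 hg)⟩

end Pool.Agent.Results.MP_ce8478_an.InnerFactorMaximal
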